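import Pool.Agent.Helper31.LW.Goals

/-!
# Project LW, packet XL: the move and the normal form
-/

set_option autoImplicit false

open Set

noncomputable section

namespace Pool.Agent.Helper27.LW

open Pool.Agent.Helper31.LW

/-- The sum over the block of `q`. -/
def Sb {n k : ℕ} (g : Fin n → Fin k) (q : Fin n) : (Fin n → ℝ) →ₗ[ℝ] ℝ where
  toFun x := ∑ i, if g i = g q then x i else 0
  map_add' x y := by
    rw [← Finset.sum_add_distrib]
    refine Finset.sum_congr rfl fun i _ => ?_
    split_ifs <;> simp
  map_smul' c x := by
    rw [RingHom.id_apply, smul_eq_mul, Finset.mul_sum]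
    refine Finset.sum_congr rfl fun i _ => ?_
    split_ifs <;> simp

lemma Sb_apply {n k : ℕ} (g : Fin n → Fin k) (q : Fin n) (x : Fin n → ℝ) :
    Sb g q x = ∑ i, if g i = g q then x i else 0 := rfl

/-- The linear map. -/
def TT {n k : ℕ} (g : Fin n → Fin k) (w : Fin n → ℝ) (q : Fin n) (s : ℝ) :
    (Fin n → ℝ) →ₗ[ℝ] (Fin n → ℝ) :=
  LinearMap.id - (LinearMap.proj q : (Fin n → ℝ) →ₗ[ℝ] ℝ).smulRight (wv g w (g q)) +
    (Sb g q).smulRight (Pi.single q (dl g w q s))

lemma TT_apply {n k : ℕ} (g : Fin n → Fin k) (w : Fin n → ℝ) (q : Fin n) (s : ℝ)
    (x : Fin n → ℝ) (l : Fin n) :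
    TT g w q s x l = x l - x q * wv g w (g q) l + if l = q then Sb g q x * dl g w q s else 0 := by
  simp [TT, Pi.single_apply]

theorem gXL : XL := by
  intro n k g w q hw hq s hs0 hs1
  set y : Fin n → ℝ := wv g w (g q) with hy
  set W : ℝ := ∑ i, y i with hW
  set δ : ℝ := dl g w q s with hδ
  have hy0 : ∀ i, 0 ≤ y i := by
    intro i
    rw [hy]
    unfold wv
    split_ifs
    · exact hw i
    · exact le_rfl
  have hW0 : 0 ≤ W := Finset.sum_nonneg fun i _ => hy0 i
  have hδW : δ * (1 + W) = 1 - 2 * s := by
    rw [hδ]
    unfold dl
    rw [← hy, ← hW]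
    field_simp
  have hyq : y q = 0 := by
    rw [hy]
    unfold wv
    simp [hq]
  have hs : 1 - s ≠ 0 := by linarith
  -- the images of the unit vectors
  have h1 : ∀ i, TT g w q s (Pi.single i 1) = pa g w q s i := by
    intro i
    funext l
    rw [TT_apply]
    have hS : Sb g q (Pi.single i 1) = if g i = g q then 1 else 0 := by
      rw [Sb_apply, Finset.sum_eq_single i]
      · simp
      · intro j _ hj
        simp [Pi.single_apply, hj]
      · intro h
        exact absurd (Finset.mem_univ i) h
    rw [hS, ← hy, ← hδ]
    unfold pa
    rw [← hy, ← hδ]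
    by_cases hi : i = q
    · subst hi
      simp only [if_true, Pi.add_apply, Pi.neg_apply, Pi.single_apply]
      split_ifs <;> ring
    · rw [if_neg hi]
      by_cases hgi : g i = g q
      · simp only [if_pos hgi, Pi.add_apply, Pi.single_apply]
        have hqi : ¬ q = i := fun h => hi h.symm
        rw [if_neg hqi]
        split_ifs <;> ring
      · simp only [if_neg hgi, Pi.single_apply]
        have hqi : ¬ q = i := fun h => hi h.symm
        rw [if_neg hqi]
        split_ifs <;> ring
  -- the images of the other vertices
  have h2 : ∀ j, TT g w q s (-(wv g (ws g w q s) j)) = pb g w q s j := by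
    intro j
    by_cases hj : j = g q
    · subst hj
      have hS : Sb g q (-(wv g (ws g w q s) (g q))) = -((s + W) / (1 - s)) := by
        have h3 : ∀ i, (if g i = g q then (-(wv g (ws g w q s) (g q))) i else 0) =
            -((if i = q then s / (1 - s) else 0) + y i / (1 - s)) := by
          intro i
          by_cases hi : i = q
          · subst hi
            simp [wv, ws, hyq]
          · by_cases hgi : g i = g q
            · simp [wv, ws, hi, hgi, hy]
            · simp [wv, hi, hgi, hy]
        rw [Sb_apply, Finset.sum_congr rfl fun i _ => h3 i, Finset.sum_neg_distrib,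
          Finset.sum_add_distrib, ← Finset.sum_div, ← hW]
        simp
        ring
      funext l
      rw [TT_apply, hS, ← hy, ← hδ]
      unfold pb
      rw [if_pos rfl, ← hy, ← hδ]
      have hvq : (-(wv g (ws g w q s) (g q))) q = -(s / (1 - s)) := by
        simp [wv, ws]
      rw [hvq]
      by_cases hl : l = q
      · subst hl
        rw [if_pos rfl, hvq, hyq]
        simp only [Pi.add_apply, Pi.neg_apply, Pi.single_eq_same]
        rw [hyq]
        field_simp
        linear_combination -hδW
      · rw [if_neg hl]
        simp only [Pi.add_apply, Pi.neg_apply, Pi.single_apply, if_neg hl, add_zero]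
        by_cases hgl : g l = g q
        · simp only [wv, ws, if_neg hl, if_pos hgl, hy]
          field_simp
          ring
        · simp [wv, hgl, hy]
    · have hv : -(wv g (ws g w q s) j) = -(wv g w j) := by
        congr 1
        funext i
        unfold wv
        by_cases hgi : g i = j
        · rw [if_pos hgi, if_pos hgi]
          have h3 : g i ≠ g q := fun h => hj (hgi.symm.trans h)
          have h4 : i ≠ q := fun h => h3 (by rw [h])
          unfold ws
          rw [if_neg h4, if_neg h3]
        · rw [if_neg hgi, if_neg hgi]
      rw [hv]
      have hS : Sb g q (-(wv g w j)) = 0 := by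
        rw [Sb_apply]
        refine Finset.sum_eq_zero fun i _ => ?_
        by_cases hgi : g i = g q
        · rw [if_pos hgi]
          have h3 : ¬ g i = j := fun h => hj (h.symm.trans hgi)
          simp [wv, h3]
        · rw [if_neg hgi]
      funext l
      rw [TT_apply, hS]
      unfold pb
      rw [if_neg hj]
      have hvq : (-(wv g w j)) q = 0 := by
        have h3 : ¬ g q = j := fun h => hj h.symm
        simp [wv, h3]
      rw [hvq]
      simp
  -- injective
  have hinj : Function.Injective (TT g w q s) := by
    rw [injective_iff_map_eq_zero]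
    intro x hx
    have h3 : ∀ l, x l - x q * y l + (if l = q then Sb g q x * δ else 0) = 0 := by
      intro l
      have h4 := congrFun hx l
      rw [TT_apply] at h4
      exact h4
    have h5 : ∀ l, l ≠ q → x l = x q * y l := by
      intro l hl
      have h6 := h3 l
      rw [if_neg hl] at h6
      linarith
    have hS : Sb g q x = x q * (1 + W) := by
      have h7 : ∀ i, (if g i = g q then x i else 0) = (if i = q then x q else 0) + x q * y i := by
        intro i
        by_cases hi : i = q
        · subst hi
          simp [hyq]
        · by_cases hgi : g i = g q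
          · rw [if_pos hgi, if_neg hi, h5 i hi, zero_add]
          · rw [if_neg hgi, if_neg hi]
            have : y i = 0 := by
              rw [hy]
              simp [wv, hgi]
            rw [this]
            ring
      rw [Sb_apply, Finset.sum_congr rfl fun i _ => h7 i, Finset.sum_add_distrib,
        ← Finset.mul_sum, ← hW]
      simp
      ring
    have h8 := h3 q
    rw [if_pos rfl, hyq, hS] at h8
    have h9 : x q * (2 * (1 - s)) = 0 := by
      linear_combination h8 - x q * hδW
    have h10 : x q = 0 := by
      rcases mul_eq_zero.1 h9 with h | h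
      · exact h
      · exfalso
        apply hs
        linarith
    funext l
    by_cases hl : l = q
    · rw [hl, h10]
      rfl
    · rw [h5 l hl, h10]
      simp
  refine ⟨LinearEquiv.ofInjectiveEndo (TT g w q s) hinj, ?_⟩
  rw [LinearEquiv.coe_ofInjectiveEndo]
  unfold NF XF
  rw [LinearMap.image_convexHull, image_union, ← range_comp, ← range_comp]
  congr 2
  · congr 1
    funext i
    exact h1 i
  · congr 1
    funext j
    exact h2 j

end Pool.Agent.Helper27.LW
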